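import Mathlib

/-!
# Projectional generators: definitions

Real Banach spaces.  `annih S` is the annihilator of `S ⊆ X` in the dual, `wcl M` the weak-star
closure of a set of functionals, `img Φ A` the union of the sets `Φ f`, `f ∈ A`.
-/

open Set Filter Topology

namespace Pool.Agent.H180.PG

section General

variable {X : Type} [NormedAddCommGroup X] [NormedSpace ℝ X]

/-- The functionals which vanish on `S`. -/
def annih (S : Set X) : Set (StrongDual ℝ X) := {f | ∀ x ∈ S, f x = 0}

/-- The weak-star closure of a set of functionals. -/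
def wcl (M : Set (StrongDual ℝ X)) : Set (StrongDual ℝ X) :=
  {f | StrongDual.toWeakDual f ∈ closure (StrongDual.toWeakDual '' M)}

/-- `Φ(A)`, the union of the `Φ(f)` with `f ∈ A`. -/
def img (Φ : StrongDual ℝ X → Set X) (A : Set (StrongDual ℝ X)) : Set X := ⋃ f ∈ A, Φ f

/-- The subspace `D` of the dual is norming: `x ↦ sup {|f x| : f ∈ D, ‖f‖ ≤ 1}` is an equivalent
norm (it is always at most `‖x‖`). -/
def IsNorming (D : Submodule ℝ (StrongDual ℝ X)) : Prop :=
  ∃ c : ℝ, 0 < c ∧ ∀ x : X, c * ‖x‖ ≤ sSup {r : ℝ | ∃ f ∈ D, ‖f‖ ≤ 1 ∧ r = |f x|}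

/-- `(D, Φ)` is a projectional generator. -/
structure IsProjGen (D : Submodule ℝ (StrongDual ℝ X)) (Φ : StrongDual ℝ X → Set X) : Prop where
  norming : IsNorming D
  countable : ∀ f ∈ D, (Φ f).Countable
  total : ∀ A : Set (StrongDual ℝ X), A ⊆ D →
    (∃ Z : Submodule ℝ (StrongDual ℝ X), (Z : Set (StrongDual ℝ X)) = closure A) →
    annih (img Φ A) ∩ wcl A = {0}

/-- The strengthened annihilator condition for `(D, Φ)`. -/
def Strengthened (D : Submodule ℝ (StrongDual ℝ X)) (Φ : StrongDual ℝ X → Set X) : Prop :=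
  ∀ M : Set (StrongDual ℝ X), M ⊆ D →
    wcl (Submodule.span ℝ M : Set (StrongDual ℝ X)) ∩ annih (img Φ M) = {0}

end General

section L1

open Classical in
/-- The space `ℓ₁(Γ)`. -/
abbrev L1 (Γ : Type) : Type := lp (fun _ : Γ => ℝ) 1

open Classical in
/-- The unit vector of `ℓ₁(Γ)` at `γ`. -/
noncomputable def e {Γ : Type} (γ : Γ) : L1 Γ := lp.single 1 γ (1 : ℝ)

/-- The coordinates of a functional on `ℓ₁(Γ)`. -/
noncomputable def co {Γ : Type} (f : StrongDual ℝ (L1 Γ)) (γ : Γ) : ℝ := f (e γ)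

/-- The function `φ` is determined by its values on `D`: it is equal at `t` and at the least
element of `D` above `t`, and it vanishes at `t` if no element of `D` is above `t`. -/
def Det {Γ : Type} [LE Γ] (D : Set Γ) (φ : Γ → ℝ) : Prop :=
  (∀ t d : Γ, d ∈ D → t ≤ d → (∀ d' ∈ D, t ≤ d' → d ≤ d') → φ t = φ d) ∧
    ∀ t : Γ, (∀ d ∈ D, ¬ t ≤ d) → φ t = 0

/-- The functionals on `ℓ₁(Γ)` determined by a countable set closed under meets. -/
def Big (Γ : Type) [SemilatticeInf Γ] : Set (StrongDual ℝ (L1 Γ)) :=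
  {f | ∃ D : Set Γ, D.Countable ∧ InfClosed D ∧ Det D (co f)}

/-- `f` is the indicator function of `{γ : γ ≤ t}` as functional on `ℓ₁(Γ)`. -/
def IsChi {Γ : Type} [LE Γ] (t : Γ) (f : StrongDual ℝ (L1 Γ)) : Prop :=
  (∀ γ, γ ≤ t → co f γ = 1) ∧ ∀ γ, ¬ γ ≤ t → co f γ = 0

end L1

section Tree

/-- The index set `ω₁` as a well-ordered type. -/
abbrev W : Type := (Cardinal.aleph 1).ord.ToType

/-- The nodes of the tree: functions from an initial segment of `ω₁` (all of it allowed) to `K`,
coded as partial functions. -/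
def Node (K : Type) : Type :=
  {p : W → Option K // ∀ a b : W, b < a → p a ≠ none → p b ≠ none}

/-- The tree order: extension of functions. -/
instance (K : Type) : LE (Node K) := ⟨fun p q => ∀ a, p.1 a ≠ none → q.1 a = p.1 a⟩

/-- A node is a top node if it is a function on all of `ω₁`. -/
def Top {K : Type} (p : Node K) : Prop := ∀ a, p.1 a ≠ none

end Tree

end Pool.Agent.H180.PG
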