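import Pool.Agent.H180.PG.Stm

/-!
# Assembly of project PG
-/

open Set Topology Cardinal

namespace Pool.Agent.H180.PG

section WeakStar

variable {X : Type} [NormedAddCommGroup X] [NormedSpace ℝ X]

theorem wcl_mono {M N : Set (StrongDual ℝ X)} (h : M ⊆ N) : wcl M ⊆ wcl N := by
  intro f hf
  show StrongDual.toWeakDual f ∈ closure (StrongDual.toWeakDual '' N)
  have hf' : StrongDual.toWeakDual f ∈ closure (StrongDual.toWeakDual '' M) := hf
  exact closure_mono (image_mono h) hf'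

theorem closure_subset_wcl (M : Set (StrongDual ℝ X)) : closure M ⊆ wcl M := by
  intro f hf
  show StrongDual.toWeakDual f ∈ closure (StrongDual.toWeakDual '' M)
  have h1 := NormedSpace.Dual.toWeakDual_continuous (𝕜 := ℝ) (E := X)
  have h2 : StrongDual.toWeakDual f ∈ closure ((fun x => StrongDual.toWeakDual x) '' M) :=
    image_closure_subset_closure_image h1 (mem_image_of_mem _ hf)
  exact h2

theorem wcl_sub (Z : Submodule ℝ (StrongDual ℝ X)) {f g : StrongDual ℝ X}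
    (hf : f ∈ wcl (Z : Set (StrongDual ℝ X))) (hg : g ∈ wcl (Z : Set (StrongDual ℝ X))) :
    f - g ∈ wcl (Z : Set (StrongDual ℝ X)) := by
  have key : ∀ h : StrongDual ℝ X, h ∈ wcl (Z : Set (StrongDual ℝ X)) ↔
      StrongDual.toWeakDual h ∈
        (Z.map (StrongDual.toWeakDual (𝕜 := ℝ) (E := X)).toLinearMap).topologicalClosure := by
    intro h
    rfl
  rw [key] at hf hg ⊢
  rw [map_sub]
  exact Submodule.sub_mem _ hf hg

end WeakStar

theorem norming_of (hL : S_L1) (hSg : S_Signs) (Γ : Type) [SemilatticeInf Γ]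
    (hc : ∀ a b c : Γ, a ≤ c → b ≤ c → a ≤ b ∨ b ≤ a)
    (Y : Submodule ℝ (StrongDual ℝ (L1 Γ)))
    (hY : ∀ (t : Γ) (f : StrongDual ℝ (L1 Γ)), IsChi t f → f ∈ Y) : IsNorming Y := by
  refine ⟨1, one_pos, fun x => ?_⟩
  rw [one_mul]
  have hbdd : BddAbove {r : ℝ | ∃ f ∈ Y, ‖f‖ ≤ 1 ∧ r = |f x|} := by
    refine ⟨‖x‖, ?_⟩
    rintro r ⟨f, -, hf, rfl⟩
    have := f.le_opNorm x
    rw [Real.norm_eq_abs] at this
    refine this.trans ?_
    calc ‖f‖ * ‖x‖ ≤ 1 * ‖x‖ := mul_le_mul_of_nonneg_right hf (norm_nonneg _)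
      _ = ‖x‖ := one_mul _
  refine le_of_forall_pos_sub_le fun ε hε => ?_
  obtain ⟨F, hF⟩ := (hL Γ).2.2.2 x ε hε
  obtain ⟨f, hfY, hf1, hfF⟩ := hSg hL Γ hc Y hY F (fun γ => (SignType.sign (x γ) : ℝ))
    (fun γ => by
      rcases lt_trichotomy (x γ) 0 with h | h | h
      · simp [sign_neg h]
      · simp [h]
      · simp [sign_pos h])
  refine (hF f hf1 fun γ hγ => ?_).trans ((le_abs_self _).trans
    (le_csSup hbdd ⟨f, hfY, hf1, rfl⟩))
  rw [hfF γ hγ]
  exact sign_mul_self (x γ)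

theorem countable_support {Γ : Type} (x : L1 Γ) : {γ | x γ ≠ 0}.Countable := by
  have h := (lp.memℓp x).summable (by norm_num)
  have h2 : Summable (fun γ => ‖x γ‖) := by simpa using h
  refine h2.countable_support.mono fun γ hγ => ?_
  simpa using hγ

theorem chi_exists (hL : S_L1) {Γ : Type} [LE Γ] (t : Γ) :
    ∃ f : StrongDual ℝ (L1 Γ), IsChi t f := by
  classical
  obtain ⟨f, -, hf⟩ := (hL Γ).2.2.1 (fun γ => if γ ≤ t then 1 else 0) 1 zero_le_one
    (fun γ => by split_ifs <;> simp)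
  refine ⟨f, fun γ h => ?_, fun γ h => ?_⟩
  · rw [hf]; simp [h]
  · rw [hf]; simp [h]

theorem chi_unique (hL : S_L1) {Γ : Type} [LE Γ] (t : Γ) (f g : StrongDual ℝ (L1 Γ))
    (hf : IsChi t f) (hg : IsChi t g) : f = g := by
  ext x
  have h := (hL Γ).1 (f - g) x (fun γ _ => by
    show (f - g) (e γ) = 0
    rw [sub_apply]
    by_cases h : γ ≤ t
    · have h1 := hf.1 γ h
      have h2 := hg.1 γ h
      unfold co at h1 h2
      rw [h1, h2, sub_self]
    · have h1 := hf.2 γ h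
      have h2 := hg.2 γ h
      unfold co at h1 h2
      rw [h1, h2, sub_self])
  rw [sub_apply] at h
  exact sub_eq_zero.mp h

theorem not_strong (hC : S_Card) (hNS : S_NodeSmall) (hNT : S_NodeTop) (hR : S_Restr)
    (hSep : S_Sep) (hL : S_L1) (hN : S_Neg) (hLim : S_Lim) :
    ∃ K : Type, ∀ (Z : Submodule ℝ (StrongDual ℝ (L1 (Node K)))),
      (∀ (t : Node K) (f : StrongDual ℝ (L1 (Node K))), IsChi t f → f ∈ Z) →
      ∀ Φ : StrongDual ℝ (L1 (Node K)) → Set (L1 (Node K)), (∀ f ∈ Z, (Φ f).Countable) →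
        ¬ Strengthened Z Φ := by
  obtain ⟨K, hK0, hK1, hK2⟩ := hC
  refine ⟨K, fun Z hZ Φ hΦ hst => ?_⟩
  choose chi hchi using fun t : Node K => chi_exists hL t
  let S : Node K → Set (Node K) := fun b => ⋃ x ∈ Φ (chi b), {γ | x γ ≠ 0}
  have hS : ∀ b ∈ {p : Node K | Top p}, (S b).Countable := fun b _ =>
    (hΦ _ (hZ b _ (hchi b))).biUnion fun x _ => countable_support x
  obtain ⟨t, A₁, A₂, hA₁, hA₂, hi₁, hi₂, ht₁, ht₂, hkey⟩ := hN (Node K) node_chain
    {p : Node K | Top p} #K hK0 hK1 (hNS K hK0 hK1) (by rw [Set.coe_ofPred, hNT K]; exact hK2)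
    (fun b hb C hCc hCT => by
      obtain ⟨s, h1, h2, h3⟩ := hR K b hb C hCc hCT
      exact ⟨s, h1, h2, h3⟩)
    (fun a ha b hb hab => (hSep K a b ha hb).2 hab) S hS
  obtain ⟨g₁, hg₁, hg₁'⟩ := hLim hL (Node K) A₁ hi₁
  obtain ⟨g₂, hg₂, hg₂'⟩ := hLim hL (Node K) A₂ hi₂
  let M : Set (StrongDual ℝ (L1 (Node K))) := {f | ∃ b ∈ A₁ ∪ A₂, f = chi b}
  have hMZ : M ⊆ Z := by
    rintro f ⟨b, -, rfl⟩
    exact hZ b _ (hchi b)
  have h₁ : {f : StrongDual ℝ (L1 (Node K)) | ∃ b ∈ A₁, IsChi b f} ⊆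
      (Submodule.span ℝ M : Set (StrongDual ℝ (L1 (Node K)))) := by
    rintro f ⟨b, hb, hf⟩
    exact Submodule.subset_span ⟨b, Or.inl hb, chi_unique hL b f _ hf (hchi b)⟩
  have h₂ : {f : StrongDual ℝ (L1 (Node K)) | ∃ b ∈ A₂, IsChi b f} ⊆
      (Submodule.span ℝ M : Set (StrongDual ℝ (L1 (Node K)))) := by
    rintro f ⟨b, hb, hf⟩
    exact Submodule.subset_span ⟨b, Or.inr hb, chi_unique hL b f _ hf (hchi b)⟩
  have hgw : g₁ - g₂ ∈ wcl (Submodule.span ℝ M : Set (StrongDual ℝ (L1 (Node K)))) :=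
    wcl_sub _ (wcl_mono h₁ hg₁) (wcl_mono h₂ hg₂)
  have hco : ∀ γ, co (g₁ - g₂) γ = co g₁ γ - co g₂ γ := fun γ => rfl
  have hga : g₁ - g₂ ∈ annih (img Φ M) := by
    intro x hx
    unfold img at hx
    simp only [mem_iUnion] at hx
    obtain ⟨f, ⟨b, hb, rfl⟩, hx⟩ := hx
    refine (hL (Node K)).1 _ x fun γ hγ => ?_
    have hγS : γ ∈ S b := mem_iUnion₂.mpr ⟨x, hx, hγ⟩
    rw [hco]
    by_cases hT : Top γ
    · have hfin : ∀ A : Set (Node K), A ⊆ {p : Node K | Top p} → {b ∈ A | γ ≤ b}.Finite := by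
        intro A hA
        refine (finite_singleton γ).subset ?_
        rintro b' ⟨hb', hle⟩
        exact ((hSep K γ b' hT (hA hb')).1 hle).symm
      rw [(hg₁' γ).1 (hfin A₁ hA₁), (hg₂' γ).1 (hfin A₂ hA₂), sub_self]
    · have hk := hkey b hb γ hγS hT
      by_cases hex : ∃ a ∈ A₁ ∪ A₂, γ ≤ a
      · obtain ⟨a, ha, hle⟩ := hex
        have he : ∀ A : Set (Node K), A ⊆ A₁ ∪ A₂ → {b ∈ A | ¬ γ ≤ b}.Finite := by
          intro A hA
          convert Set.finite_empty
          ext b'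
          simp only [mem_ofPred_eq, mem_empty_iff_false, iff_false, not_and, not_not]
          exact fun hb' => hk a ha b' (hA hb') hle
        rw [(hg₁' γ).2 (he A₁ subset_union_left), (hg₂' γ).2 (he A₂ subset_union_right), sub_self]
      · push Not at hex
        have he : ∀ A : Set (Node K), A ⊆ A₁ ∪ A₂ → {b ∈ A | γ ≤ b}.Finite := by
          intro A hA
          convert Set.finite_empty
          ext b'
          simp only [mem_ofPred_eq, mem_empty_iff_false, iff_false, not_and]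
          exact fun hb' => hex b' (hA hb')
        rw [(hg₁' γ).1 (he A₁ subset_union_left), (hg₂' γ).1 (he A₂ subset_union_right), sub_self]
  have h0 : g₁ - g₂ = 0 := by
    have := hst M hMZ
    have h : g₁ - g₂ ∈ ({0} : Set (StrongDual ℝ (L1 (Node K)))) := this ▸ ⟨hgw, hga⟩
    exact h
  have ht : co (g₁ - g₂) t = 1 := by
    have e1 : {b ∈ A₁ | ¬ t ≤ b}.Finite := by
      convert Set.finite_empty
      ext b'
      simp only [mem_ofPred_eq, mem_empty_iff_false, iff_false, not_and, not_not]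
      exact fun hb' => ht₁ b' hb'
    have e2 : {b ∈ A₂ | t ≤ b}.Finite := by
      convert Set.finite_empty
      ext b'
      simp only [mem_ofPred_eq, mem_empty_iff_false, iff_false, not_and]
      exact fun hb' => ht₂ b' hb'
    rw [hco, (hg₁' t).2 e1, (hg₂' t).1 e2, sub_zero]
  rw [h0] at ht
  exact zero_ne_one ht

/-- The answer: a Banach space `X`, subspaces `Y ≤ Y'` of `X*`, `Y` norm closed, `Y'` closed under
weak-star closures of countable sets, such that for every subspace `Z` between them `X` admits a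
projectional generator with domain `Z`, and no choice of countable sets on `Z` has the strengthened
annihilator property. -/
def Answer : Prop :=
  ∃ (X : Type) (_ : NormedAddCommGroup X) (_ : NormedSpace ℝ X) (_ : CompleteSpace X)
    (Y Y' : Submodule ℝ (StrongDual ℝ X)), Y ≤ Y' ∧ IsClosed (Y : Set (StrongDual ℝ X)) ∧
    (∀ C : Set (StrongDual ℝ X), C ⊆ Y' → C.Countable → wcl C ⊆ Y') ∧
    ∀ Z : Submodule ℝ (StrongDual ℝ X), Y ≤ Z → Z ≤ Y' →
      (∃ Φ : StrongDual ℝ X → Set X, IsProjGen Z Φ) ∧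
      ∀ Φ : StrongDual ℝ X → Set X, (∀ f ∈ Z, (Φ f).Countable) → ¬ Strengthened Z Φ

theorem final (hC : S_Card) (hNS : S_NodeSmall) (hNT : S_NodeTop) (hR : S_Restr)
    (hSep : S_Sep) (hL : S_L1) (hSg : S_Signs) (hG : S_Gen) (hB : S_Big) (hN : S_Neg)
    (hLim : S_Lim) : Answer := by
  obtain ⟨K, hK⟩ := not_strong hC hNS hNT hR hSep hL hN hLim
  obtain ⟨⟨B, hBB⟩, hBc, hBw⟩ := hB (Node K)
  have hBcl : IsClosed (B : Set (StrongDual ℝ (L1 (Node K)))) := by
    rw [← isSeqClosed_iff_isClosed]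
    intro u f hu huf
    rw [hBB]
    refine hBw (range u) ?_ (countable_range u) ?_
    · rintro _ ⟨n, rfl⟩
      rw [← hBB]; exact hu n
    · exact closure_subset_wcl _ (mem_closure_of_tendsto huf
        (Filter.Eventually.of_forall fun n => mem_range_self n))
  let Y0 : Submodule ℝ (StrongDual ℝ (L1 (Node K))) :=
    Submodule.span ℝ {f | ∃ t : Node K, IsChi t f}
  have hY0B : Y0 ≤ B := by
    refine Submodule.span_le.mpr ?_
    rintro f ⟨t, ht⟩
    rw [hBB]; exact hBc t f ht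
  refine ⟨L1 (Node K), inferInstance, inferInstance, inferInstance, Y0.topologicalClosure, B,
    Submodule.topologicalClosure_minimal _ hY0B hBcl, Submodule.isClosed_topologicalClosure _,
    fun C hCB hCc => ?_, fun Z hYZ hZB => ?_⟩
  · rw [hBB] at hCB ⊢
    exact hBw C hCB hCc
  · have hchi : ∀ (t : Node K) (f : StrongDual ℝ (L1 (Node K))), IsChi t f → f ∈ Z :=
      fun t f h => hYZ (Submodule.le_topologicalClosure _ (Submodule.subset_span ⟨t, h⟩))
    refine ⟨hG hL (Node K) node_chain Z ?_ (norming_of hL hSg (Node K) node_chain Z hchi), hK Z hchi⟩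
    rw [← hBB]
    exact hZB

end Pool.Agent.H180.PG
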