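import Pool.Agent.H180.PG.Tree

/-!
# Statements of the lemma jobs of project PG
-/

open Set Topology Cardinal

namespace Pool.Agent.H180.PG

/-- JOB PG-Card.  Take `κ = ℶ_{ω₁}`: a strong limit cardinal of cofinality `ℵ₁`.
`κ < κ ^ ℵ₁` by `Cardinal.lt_power_cof_ord`.  `κ ^ ℵ₀ ≤ κ`: a function `ℕ → κ` has a bounded range
(cofinality `> ℵ₀`), equivalently its graph, a countable subset of `ℕ × κ ≃ κ`, is a bounded subset of
`κ`, and there are only `κ` bounded subsets (`Cardinal.mk_bounded_subset`,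
`Mathlib/SetTheory/Cardinal/Cofinality/Ordinal.lean`). -/
def S_Card : Prop := ∃ K : Type, ℵ₀ ≤ #K ∧ #K ^ ℵ₀ ≤ #K ∧ #K < #K ^ (aleph 1)

/-- JOB PG-NodeSmall.  A node `p` which is not a top node has a least place `x` where it is undefined and
is determined by `x` and by the function `{a // a < x} → K`; the set `{a // a < x}` is countable
(`x : (aleph 1).ord.ToType`). So there are at most `ℵ₁ * #K ^ ℵ₀ ≤ #K` of them
(`ℵ₁ ≤ 2 ^ ℵ₀ ≤ #K ^ ℵ₀`). -/
def S_NodeSmall : Prop := ∀ K : Type, ℵ₀ ≤ #K → #K ^ ℵ₀ ≤ #K →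
    #{p : Node K // ¬ Top p} ≤ #K

/-- JOB PG-NodeTop.  Top nodes are the functions `W → K`, and `#W = ℵ₁`. -/
def S_NodeTop : Prop := ∀ K : Type, #{p : Node K // Top p} = #K ^ (aleph 1)

/-- JOB PG-Restr.  Every `c ∈ C` is undefined at some place `x c`; the countable set of the `x c` is
bounded in `W` (countable subsets of `ω₁` are bounded), say by `y` (strictly); let `s` be the
restriction of `b` to `{a | a < y}`. -/
def S_Restr : Prop := ∀ (K : Type) (b : Node K), Top b → ∀ C : Set (Node K), C.Countable →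
    (∀ c ∈ C, ¬ Top c) → ∃ s : Node K, ¬ Top s ∧ s ≤ b ∧ ∀ c ∈ C, c ≤ b → c ≤ s

/-- JOB PG-Sep.  Two top nodes which are comparable are equal; if they are different they are different
at a place `x`, take the restriction of `a` to `{y | y ≤ x}` (`W` has no greatest element). -/
def S_Sep : Prop := ∀ (K : Type) (a b : Node K), Top a → Top b →
    (a ≤ b → a = b) ∧ (a ≠ b → ∃ t : Node K, ¬ Top t ∧ t ≤ a ∧ ¬ t ≤ b)

/-- JOB PG-L1.  Functionals on `ℓ₁(Γ)` (`lp.hasSum_single`, `x = ∑ x γ • e γ`, `‖x‖ = ∑ |x γ|`).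
(a) a functional whose coordinates vanish on the support of `x` vanishes at `x`; (b) coordinates are
bounded by the norm; (c) every bounded function is the coordinate function of a functional;
(d) a functional of norm at most one with the signs of `x` on a large finite set is nearly norming:
`F` with `∑_{γ ∉ F} |x γ| ≤ ε / 2`. -/
def S_L1 : Prop := ∀ Γ : Type,
    (∀ (f : StrongDual ℝ (L1 Γ)) (x : L1 Γ), (∀ γ, x γ ≠ 0 → co f γ = 0) → f x = 0) ∧
    (∀ (f : StrongDual ℝ (L1 Γ)) (γ : Γ), |co f γ| ≤ ‖f‖) ∧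
    (∀ (φ : Γ → ℝ) (C : ℝ), 0 ≤ C → (∀ γ, |φ γ| ≤ C) →
      ∃ f : StrongDual ℝ (L1 Γ), ‖f‖ ≤ C ∧ ∀ γ, co f γ = φ γ) ∧
    ∀ (x : L1 Γ) (ε : ℝ), 0 < ε → ∃ F : Finset Γ, ∀ f : StrongDual ℝ (L1 Γ), ‖f‖ ≤ 1 →
      (∀ γ ∈ F, co f γ * x γ = |x γ|) → ‖x‖ - ε ≤ f x

/-- JOB PG-Signs.  In a tree (predecessors form chains, meets exist) let `F` be finite. For `γ ∈ F` let
`s γ` be the greatest of the meets `γ ⊓ γ'`, `γ' ∈ F`, `¬ γ ≤ γ'` (all are below `γ`, so they form a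
chain; if there is none use the whole set `{u | u ≤ γ}`), `I γ = {u | u ≤ γ ∧ ¬ u ≤ s γ}`. The sets `I γ`
are pairwise disjoint: if `u ∈ I γ ∩ I γ'`, `γ ≠ γ'`, then `u ≤ γ ⊓ γ'`; either `¬ γ ≤ γ'` and
`γ ⊓ γ' ≤ s γ`, or `¬ γ' ≤ γ` and `γ ⊓ γ' ≤ s γ'`, a contradiction. The functional with the coordinate
function `∑_{γ ∈ F} σ γ * 1_{I γ}` (use `S_L1`, parts (a) and (c), as hypothesis `h`) is a combination of
indicator functionals, has norm at most one and the value `σ γ` at `γ`. -/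
def S_Signs : Prop := S_L1 → ∀ (Γ : Type) [SemilatticeInf Γ],
    (∀ a b c : Γ, a ≤ c → b ≤ c → a ≤ b ∨ b ≤ a) →
    ∀ (Y : Submodule ℝ (StrongDual ℝ (L1 Γ))), (∀ (t : Γ) (f : StrongDual ℝ (L1 Γ)),
      IsChi t f → f ∈ Y) → ∀ (F : Finset Γ) (σ : Γ → ℝ), (∀ γ, |σ γ| ≤ 1) →
      ∃ f ∈ Y, ‖f‖ ≤ 1 ∧ ∀ γ ∈ F, co f γ = σ γ

/-- JOB PG-Gen.  The generator.  For `f ∈ Big Γ` choose a countable meet-closed `D' f` with
`Det (D' f) (co f)`, put `S f = {d ∈ D' f | ∃ m, d ≤ m ∧ co f m ≠ 0}` and `Φ f = e '' S f`.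
Let `A ⊆ Y` with `closure A = Z` linear and `D = ⋃ f ∈ A, S f`.
(1) `D` is meet-closed: let `d ∈ S f`, `d' ∈ S f'`; if they are comparable the meet is one of them.
Otherwise take `m ≥ d`, `m' ≥ d'` with `co f m ≠ 0`, `co f' m' ≠ 0`; one of `z = f + c • f'`,
`c ∈ {0, 1, 2, 3}` or `z = f'` has `co z m ≠ 0`, `co z m' ≠ 0` (it is enough to avoid two values of `c`), and
`z ∈ Z`, so some `a ∈ A` is so near to `z` that `co a m ≠ 0`, `co a m' ≠ 0` (`|co g γ| ≤ ‖g‖`). Let `x`, `x'`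
be the least elements of `D' a` above `m`, `m'` (they exist by `Det` and since `Γ` is well-founded and
`D' a` is meet-closed); `co a x = co a m ≠ 0`, so `x ⊓ x' ∈ S a`; and `x ⊓ x' = d ⊓ d'`, since `d ≤ x`,
`d' ≤ x'`, the predecessors of `x` and of `x'` form chains and `d`, `d'` are incomparable.
(2) `Det D (co f)` for `f ∈ A`: let `d` be the least element of `D` above `t`. If some element of `D' f` is
above `t` let `e` be the least one. If `co f t ≠ 0` then `e` exists, `co f e = co f t ≠ 0`, `e ∈ S f ⊆ D`,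
so `t ≤ d ≤ e` and `e` is also the least element of `D' f` above `d`: `co f d = co f e = co f t`.
If `co f t = 0` and `co f d ≠ 0`, let `e'` be the least element of `D' f` above `d`, `co f e' ≠ 0`; then `e`
exists, `e ≤ e'`, so `e ∈ S f ⊆ D`, `d ≤ e`, so `e` is the least element of `D' f` above `d`, and
`co f d = co f e = co f t = 0`, a contradiction. If no element of `D` is above `t` and `co f t ≠ 0` then
`e ∈ D`, a contradiction.
(3) The property `Det D (co g)` is given by linear equations in `g (e t)`, `g (e d)`, so it passes to the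
weak-star closure. If `g ∈ wcl A` vanishes on `Φ(A)`, i.e. at `e d`, `d ∈ D`, then `co g = 0` (every `t`
has a least element of `D` above it or none) and `g = 0` by `S_L1` (a). (`0 ∈ wcl A` as `0 ∈ closure A`.) -/
def S_Gen : Prop := S_L1 → ∀ (Γ : Type) [SemilatticeInf Γ] [WellFoundedLT Γ],
    (∀ a b c : Γ, a ≤ c → b ≤ c → a ≤ b ∨ b ≤ a) →
    ∀ Y : Submodule ℝ (StrongDual ℝ (L1 Γ)), (Y : Set (StrongDual ℝ (L1 Γ))) ⊆ Big Γ →
      IsNorming Y → ∃ Φ : StrongDual ℝ (L1 Γ) → Set (L1 Γ), IsProjGen Y Φ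

/-- JOB PG-Big.  `Big Γ` is a linear subspace which contains the indicator functionals and the weak-star
closures of its countable subsets. Proof. Monotonicity: if `D' ⊆ D` are both meet-closed and `Det D' φ`
then `Det D φ` (let `d` be the least element of `D` above `t`; if `e` is the least element of `D'` above
`t`, then `d ≤ e` and `e` is the least element of `D'` above `d`; if there is no element of `D'` above `t`,
there is none above `d`). So for countably many `f n` with sets `D n` all have `Det D (co (f n))` for the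
countable set `D = infClosure (⋃ n, D n)` (image of the nonempty finite subsets), and `Det D (co g)` is a
weak-star closed linear condition on `g`. `IsChi t f` gives `Det {t} (co f)`. -/
def S_Big : Prop := ∀ (Γ : Type) [SemilatticeInf Γ] [WellFoundedLT Γ],
    (∃ B : Submodule ℝ (StrongDual ℝ (L1 Γ)), (B : Set (StrongDual ℝ (L1 Γ))) = Big Γ) ∧
    (∀ (t : Γ) (f : StrongDual ℝ (L1 Γ)), IsChi t f → f ∈ Big Γ) ∧
    ∀ C : Set (StrongDual ℝ (L1 Γ)), C ⊆ Big Γ → C.Countable → wcl C ⊆ Big Γ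

/-- JOB PG-Neg.  Counting.  `T` are the top nodes, `N = Tᶜ`, `#N ≤ κ = κ ^ ℵ₀ < #T`.
For `b ∈ T` let `C b = S b ∩ N` (countable) and `s b ∈ N` from the hypothesis for `C b`. The map
`F b = (C b, s b)` has at most `κ ^ ℵ₀ * κ ≤ κ` values. Call `b ∈ T` bad if for some `t ∈ N`, `t ≤ b`, the
set `{b' ∈ T | F b' = F b ∧ t ≤ b'}` is finite; for every pair (value of `F`, `t`) this gives finitely many
bad `b`, in all at most `κ`. So there are more than `κ` good ones and two different good ones `b₁`, `b₂`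
with `F b₁ = F b₂`. Take `t₁ ≤ b₁`, `¬ t₁ ≤ b₂`, `t₂ ≤ b₂`, `¬ t₂ ≤ b₁` in `N`; `t = t₁`,
`A i = {b' ∈ T | F b' = F b₁ ∧ t i ≤ b'}`. If `b' ∈ A₂` were above `t₁` then `t₁`, `t₂` would be comparable, a
contradiction. If `γ ∈ S b`, `γ ∉ T`, `b ∈ A₁ ∪ A₂`, then `γ ∈ C b = C a` for all `a ∈ A₁ ∪ A₂`, and
`γ ≤ a ↔ γ ≤ s a`, where `s a` is the same for all these `a`. -/
def S_Neg : Prop := ∀ (Γ : Type) [PartialOrder Γ],
    (∀ a b c : Γ, a ≤ c → b ≤ c → a ≤ b ∨ b ≤ a) →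
    ∀ (T : Set Γ) (κ : Cardinal.{0}), ℵ₀ ≤ κ → κ ^ ℵ₀ ≤ κ → #{γ // γ ∉ T} ≤ κ → κ < #T →
    (∀ b ∈ T, ∀ C : Set Γ, C.Countable → (∀ c ∈ C, c ∉ T) →
      ∃ s, s ∉ T ∧ s ≤ b ∧ ∀ c ∈ C, c ≤ b → c ≤ s) →
    (∀ a ∈ T, ∀ b ∈ T, a ≠ b → ∃ t, t ∉ T ∧ t ≤ a ∧ ¬ t ≤ b) →
    ∀ S : Γ → Set Γ, (∀ b ∈ T, (S b).Countable) →
    ∃ (t : Γ) (A₁ A₂ : Set Γ), A₁ ⊆ T ∧ A₂ ⊆ T ∧ A₁.Infinite ∧ A₂.Infinite ∧
      (∀ b ∈ A₁, t ≤ b) ∧ (∀ b ∈ A₂, ¬ t ≤ b) ∧
      ∀ b ∈ A₁ ∪ A₂, ∀ γ ∈ S b, γ ∉ T → ∀ a ∈ A₁ ∪ A₂, ∀ a' ∈ A₁ ∪ A₂, γ ≤ a → γ ≤ a'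

/-- JOB PG-Lim.  Limits along an ultrafilter: let `u : ℕ → A` be injective, `f n` the indicator functional
of `u n` (norm at most one, `S_L1` (c)), `g` a limit of the `f n` along the hyperfilter of `ℕ` in the
weak-star topology (`WeakDual.isCompact_closedBall`, or define the coordinates of `g` by limits and use
`S_L1`). -/
def S_Lim : Prop := S_L1 → ∀ (Γ : Type) [PartialOrder Γ] (A : Set Γ), A.Infinite →
    ∃ g ∈ wcl {f : StrongDual ℝ (L1 Γ) | ∃ b ∈ A, IsChi b f},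
      ∀ γ, ({b ∈ A | γ ≤ b}.Finite → co g γ = 0) ∧ ({b ∈ A | ¬ γ ≤ b}.Finite → co g γ = 1)

end Pool.Agent.H180.PG
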