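import Pool.Agent.H180.PG.Basic

/-!
# The tree of functions on initial segments of `ω₁`: order, meets, well-foundedness
-/

open Set

namespace Pool.Agent.H180.PG

variable {K : Type}

theorem node_le_iff (p q : Node K) : p ≤ q ↔ ∀ a, p.1 a ≠ none → q.1 a = p.1 a := Iff.rfl

instance : PartialOrder (Node K) where
  le := (· ≤ ·)
  le_refl p := fun a _ => rfl
  le_trans p q r h1 h2 := fun a ha => by
    have h := h1 a ha
    rw [h2 a (by rw [h]; exact ha), h]
  le_antisymm p q h1 h2 := by
    apply Subtype.ext
    funext a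
    by_cases ha : p.1 a = none
    · by_cases hb : q.1 a = none
      · rw [ha, hb]
      · exact h2 a hb
    · exact (h1 a ha).symm

open Classical in
/-- The meet of two nodes. -/
noncomputable def Node.inf (p q : Node K) : Node K :=
  ⟨fun a => if ∀ b, b ≤ a → p.1 b = q.1 b ∧ p.1 b ≠ none then p.1 a else none, by
    intro a b hb ha
    by_cases h : ∀ b, b ≤ a → p.1 b = q.1 b ∧ p.1 b ≠ none
    · have h' : ∀ c, c ≤ b → p.1 c = q.1 c ∧ p.1 c ≠ none := fun c hc => h c (hc.trans hb.le)
      simp only [if_pos h']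
      exact (h b hb.le).2
    · simp [h] at ha⟩

theorem Node.inf_apply (p q : Node K) (a : W) (h : (Node.inf p q).1 a ≠ none) :
    (∀ b, b ≤ a → p.1 b = q.1 b ∧ p.1 b ≠ none) ∧ (Node.inf p q).1 a = p.1 a := by
  classical
  by_cases h' : ∀ b, b ≤ a → p.1 b = q.1 b ∧ p.1 b ≠ none
  · refine ⟨h', ?_⟩
    simp only [Node.inf, if_pos h']
  · exact absurd (by simp only [Node.inf, if_neg h']) h

theorem Node.inf_apply' (p q : Node K) (a : W) (h : ∀ b, b ≤ a → p.1 b = q.1 b ∧ p.1 b ≠ none) :
    (Node.inf p q).1 a = p.1 a := by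
  classical
  simp only [Node.inf, if_pos h]

noncomputable instance : SemilatticeInf (Node K) where
  inf := Node.inf
  inf_le_left p q := fun a ha => ((Node.inf_apply p q a ha).2).symm
  inf_le_right p q := fun a ha => by
    obtain ⟨h1, h2⟩ := Node.inf_apply p q a ha
    rw [h2, (h1 a le_rfl).1]
  le_inf r p q h1 h2 := fun a ha => by
    have key : ∀ b, b ≤ a → p.1 b = q.1 b ∧ p.1 b ≠ none := by
      intro b hb
      have hr : r.1 b ≠ none := by
        rcases eq_or_lt_of_le hb with rfl | hb
        · exact ha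
        · exact r.2 a b hb ha
      refine ⟨(h1 b hr).trans (h2 b hr).symm, ?_⟩
      rw [h1 b hr]; exact hr
    show (Node.inf p q).1 a = r.1 a
    rw [Node.inf_apply' p q a key]
    exact h1 a ha

/-- The predecessors of a node form a chain. -/
theorem node_chain (a b c : Node K) (h1 : a ≤ c) (h2 : b ≤ c) : a ≤ b ∨ b ≤ a := by
  by_cases h : a ≤ b
  · exact Or.inl h
  · right
    rw [node_le_iff] at h
    push Not at h
    obtain ⟨x, hx, hne⟩ := h
    have hbx : b.1 x = none := by
      by_contra hb
      exact hne ((h2 x hb).symm.trans (h1 x hx))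
    intro y hy
    have hyx : y < x := by
      by_contra hcon
      rcases eq_or_lt_of_le (not_lt.mp hcon) with rfl | h'
      · exact hy hbx
      · exact b.2 y x h' hy hbx
    have hay : a.1 y ≠ none := a.2 x y hyx hx
    rw [← h1 y hay, h2 y hy]

/-- The first place where a node is undefined (`⊤` for a top node). -/
noncomputable def lvl (p : Node K) : WithTop W :=
  open Classical in
  if h : ∃ a, p.1 a = none then
    ((wellFounded_lt (α := W)).min {a | p.1 a = none} h : W) else ⊤

theorem lt_lvl (p : Node K) (x : W) (h : p.1 x ≠ none) : (x : WithTop W) < lvl p := by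
  classical
  unfold lvl
  split_ifs with h'
  · rw [WithTop.coe_lt_coe]
    have hm := (wellFounded_lt (α := W)).min_mem {a | p.1 a = none} h'
    by_contra hcon
    rcases eq_or_lt_of_le (not_lt.mp hcon) with h2 | h2
    · exact h (h2 ▸ hm)
    · exact p.2 x _ h2 h hm
  · exact WithTop.coe_lt_top x

theorem lvl_le (p : Node K) (x : W) (h : p.1 x = none) : lvl p ≤ (x : WithTop W) := by
  classical
  unfold lvl
  rw [dif_pos ⟨x, h⟩, WithTop.coe_le_coe]
  exact not_lt.mp ((wellFounded_lt (α := W)).not_lt_min {a | p.1 a = none} h)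

theorem lvl_lt (p q : Node K) (h : p < q) : lvl p < lvl q := by
  have h' := h.not_ge
  rw [node_le_iff] at h'
  push Not at h'
  obtain ⟨x, hx, hne⟩ := h'
  have hp : p.1 x = none := by
    by_contra hp
    exact hne ((h.le x hp).symm)
  exact (lvl_le p x hp).trans_lt (lt_lvl q x hx)

instance : WellFoundedLT (Node K) :=
  ⟨Subrelation.wf (r := InvImage (· < ·) lvl) (fun {a b} h => lvl_lt a b h)
    (InvImage.wf lvl (wellFounded_lt (α := WithTop W)))⟩

end Pool.Agent.H180.PG
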